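import Pool.Agent.Helper26.HB.Goals

/-! Packet HB-LB: the lower bound. -/

set_option autoImplicit false

open Pool.Agent.Helper7.Horo (len Gen bb exists_geod)
open Pool.Agent.Helper26.HB

namespace Pool.Agent.Helper89.HB

/-- linear version of `ro` -/
noncomputable def roL {d : ℕ} (B : Bil d) (u v : E d) : E d →ₗ[ℝ] E d :=
  LinearMap.id - ((B u v)⁻¹ • (B.flip v)).smulRight u - ((B u v)⁻¹ • (B u)).smulRight v

lemma roL_apply {d : ℕ} (B : Bil d) (u v x : E d) : roL B u v x = ro B u v x := by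
  simp [roL, ro, al, be, div_eq_inv_mul]

lemma exists_path {G : Type} [Group G] {S : Finset G} (hS : Gen S) (g : G) :
    ∃ p : ℕ → G, p 0 = 1 ∧ (∀ i < len S g, (p i)⁻¹ * p (i + 1) ∈ S) ∧ p (len S g) = g := by
  obtain ⟨l, h1, h2, h3⟩ := exists_geod hS g
  refine ⟨fun j => (l.take j).prod, by simp, ?_, ?_⟩
  · intro i hi
    rw [← h1] at hi
    have e : (l.take (i + 1)).prod = (l.take i).prod * l[i] := by
      rw [List.prod_take_succ]
    simp only [e, inv_mul_cancel_left]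
    exact h2 _ (List.getElem_mem hi)
  · simp only
    rw [← h1, List.take_length, h3]

section alg

variable {d : ℕ} {B : Bil d} {u v : E d}

lemma antis (hB : ∀ w, B w w = 0) (x y : E d) : B y x = - B x y := by
  have h := hB (x + y)
  simp only [map_add, LinearMap.add_apply, hB] at h
  linarith

lemma B_u_ro (hB : ∀ w, B w w = 0) (hk : B u v ≠ 0) (x : E d) : B u (roL B u v x) = 0 := by
  rw [roL_apply]
  simp only [ro, al, be, map_sub, map_smul, hB, smul_eq_mul]
  field_simp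
  ring

lemma B_ro_v (hB : ∀ w, B w w = 0) (hk : B u v ≠ 0) (x : E d) : B (roL B u v x) v = 0 := by
  rw [roL_apply]
  simp only [ro, al, be, map_sub, map_smul, LinearMap.sub_apply, LinearMap.smul_apply, hB,
    smul_eq_mul]
  field_simp
  ring

lemma B_v_ro (hB : ∀ w, B w w = 0) (hk : B u v ≠ 0) (x : E d) : B v (roL B u v x) = 0 := by
  rw [antis hB (roL B u v x) v, B_ro_v hB hk, neg_zero]

lemma B_ro_u (hB : ∀ w, B w w = 0) (hk : B u v ≠ 0) (x : E d) : B (roL B u v x) u = 0 := by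
  rw [antis hB u (roL B u v x), B_u_ro hB hk, neg_zero]

lemma ro_u (hB : ∀ w, B w w = 0) (hk : B u v ≠ 0) : roL B u v u = 0 := by
  rw [roL_apply]
  simp only [ro, al, be, hB]
  rw [div_self hk, zero_div, one_smul, zero_smul, sub_self, sub_zero]

lemma ro_v (hB : ∀ w, B w w = 0) (hk : B u v ≠ 0) : roL B u v v = 0 := by
  rw [roL_apply]
  simp only [ro, al, be, hB]
  rw [div_self hk, zero_div, one_smul, zero_smul, sub_zero, sub_self]

lemma ro_ro (hB : ∀ w, B w w = 0) (hk : B u v ≠ 0) (x : E d) :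
    roL B u v (ro B u v x) = roL B u v x := by
  rw [ro, map_sub, map_sub, map_smul, map_smul, ro_u hB hk, ro_v hB hk]
  simp

lemma expand (hB : ∀ w, B w w = 0) (hk : B u v ≠ 0) (a b a' b' : ℝ) (x x' : E d) :
    B (a • u + b • v + roL B u v x) (a' • u + b' • v + roL B u v x')
      = B u v * (a * b' - b * a') + B (roL B u v x) (roL B u v x') := by
  simp only [map_add, map_smul, LinearMap.add_apply, LinearMap.smul_apply, hB, smul_eq_mul,
    B_u_ro hB hk, B_ro_v hB hk, B_v_ro hB hk, B_ro_u hB hk, antis hB u v]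
  ring

end alg

section dat

variable {N : Type} [Group N] {d : ℕ} {π : N → E d} {B : Bil d} {ζ : N → ℝ}

lemma pi_one (D : Dat N d π B ζ) : π 1 = 0 := by
  have := D.hom 1 1
  rw [mul_one] at this
  simpa using this

lemma pi_inv (D : Dat N d π B ζ) (x : N) : π x⁻¹ = - π x := by
  have := D.hom x x⁻¹
  rw [mul_inv_cancel, pi_one D] at this
  exact (neg_eq_of_add_eq_zero_right this.symm).symm

lemma pi_pow (D : Dat N d π B ζ) (x : N) (k : ℕ) : π (x ^ k) = (k : ℝ) • π x := by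
  induction k with
  | zero => simp [pi_one D]
  | succ k ih => rw [pow_succ, D.hom, ih]; push_cast; rw [add_smul, one_smul]

lemma zeta_one (D : Dat N d π B ζ) : ζ 1 = 0 := by
  have := D.zeta 1 1
  rw [mul_one, D.alt] at this
  linarith

lemma zeta_inv (D : Dat N d π B ζ) (x : N) : ζ x⁻¹ = - ζ x := by
  have := D.zeta x x⁻¹
  rw [mul_inv_cancel, zeta_one D, pi_inv D, map_neg, D.alt] at this
  linarith

lemma zeta_pow (D : Dat N d π B ζ) (x : N) (k : ℕ) : ζ (x ^ k) = k * ζ x := by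
  induction k with
  | zero => simp [zeta_one D]
  | succ k ih =>
    rw [pow_succ, D.zeta, ih, pi_pow D, map_smul, LinearMap.smul_apply, D.alt]
    push_cast
    simp
    ring

lemma zeta_g (D : Dat N d π B ζ) {u v : E d} {a b : N} {ℓa ℓb : ℝ}
    (ha : π a = ℓa • u) (hb : π b = ℓb • v) (R n : ℕ) :
    ζ (b⁻¹ ^ R * a ^ n * b ^ n) = ((n : ℝ) - R) * ζ b + n * ζ a
      + B u v * (ℓa * ℓb) * ((R : ℝ) * n + n ^ 2) / 2 := by
  rw [D.zeta, D.zeta, zeta_pow D, zeta_pow D, zeta_pow D, zeta_inv D, D.hom, pi_pow D, pi_pow D,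
    pi_pow D, pi_inv D, ha, hb]
  simp only [map_add, map_smul, map_neg, LinearMap.add_apply, LinearMap.smul_apply,
    LinearMap.neg_apply, smul_eq_mul, D.alt, antis D.alt u v, smul_neg]
  ring

lemma pi_g (D : Dat N d π B ζ) {u v : E d} {a b : N} {ℓa ℓb : ℝ}
    (ha : π a = ℓa • u) (hb : π b = ℓb • v) (R n : ℕ) :
    π (b⁻¹ ^ R * a ^ n * b ^ n) = ((n : ℝ) * ℓa) • u + (((n : ℝ) - R) * ℓb) • v := by
  rw [D.hom, D.hom, pi_pow D, pi_pow D, pi_pow D, pi_inv D, ha, hb]
  module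

end dat

theorem gLB : G_LB := by
  intro hA1 hA2 hA3 G _ S hS N _ _ d π B ζ u v φ f U V W K δ a b ℓa ℓb C D hφu hφv hκ hC hℓa hℓb
    hπa hπb _ _
  have hk : B u v ≠ 0 := hκ.ne'
  have hB := D.alt
  obtain ⟨hδ, hK⟩ := hC.pos
  set F : G → E d := fun g => U g • u + V g • v + roL B u v (W g) with hF
  have hFeq : ∀ (n : N) (g : G), F (n * g) = π n + F g := by
    intro n g
    simp only [hF]
    rw [hC.U_eq, hC.V_eq, hC.W_eq, map_add, ro_ro hB hk, roL_apply B u v (π n)]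
    simp only [ro]
    module
  obtain ⟨C1, hC1⟩ := hA1 G S N d π B ζ D F hFeq
  obtain ⟨C2, hC2⟩ := hA3 d B (roL B u v)
  set κ := B u v with hκd
  have hla : (1 : ℝ) ≤ ℓa := by exact_mod_cast hℓa
  have hlb : (1 : ℝ) ≤ ℓb := by exact_mod_cast hℓb
  set C3 : ℝ := ℓa + ℓb + 1 with hC3
  have hC3p : 0 < C3 := by positivity
  have hden : 0 < 6 * κ * K ^ 2 * C3 + 1 := by positivity
  set ε : ℝ := min 1 (δ * (κ * (ℓa * ℓb)) / (6 * κ * K ^ 2 * C3 + 1)) with hε
  have hεp : 0 < ε := by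
    rw [hε]; apply lt_min one_pos; positivity
  have hε1 : ε ≤ 1 := min_le_left _ _
  have hε2 : ε * (6 * κ * K ^ 2 * C3) ≤ δ * (κ * (ℓa * ℓb)) := by
    have h1 : ε ≤ δ * (κ * (ℓa * ℓb)) / (6 * κ * K ^ 2 * C3 + 1) := min_le_right _ _
    rw [le_div_iff₀ hden] at h1
    have e : ε * (6 * κ * K ^ 2 * C3 + 1) = ε * (6 * κ * K ^ 2 * C3) + ε := by ring
    linarith
  set C5 : ℝ := |ζ a| + |ζ b| + |C1| * C3 with hC5
  set C4 : ℝ := |C2| * K ^ 2 * (ε / δ) ^ 2 with hC4
  obtain ⟨R0, hR0⟩ := exists_nat_gt ((2 * (C5 + 1)) / (κ * (ℓa * ℓb)))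
  refine ⟨ε, hεp, R0, ?_⟩
  intro R hR
  obtain ⟨n1, hn1⟩ := exists_nat_ge (C4 * (R : ℝ) ^ 2)
  refine ⟨max (max R n1) 1, ?_⟩
  intro n hn
  have hnR : R ≤ n := le_trans (le_trans (le_max_left _ _) (le_max_left _ _)) hn
  have hnn1 : n1 ≤ n := le_trans (le_trans (le_max_right _ _) (le_max_left _ _)) hn
  have hn1' : 1 ≤ n := le_trans (le_max_right _ _) hn
  by_contra hcon
  push Not at hcon
  set g : N := b⁻¹ ^ R * a ^ n * b ^ n with hg
  have hgG : ((b : G)⁻¹ ^ R * (a : G) ^ n * (b : G) ^ n) = (g : G) := by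
    rw [hg]; push_cast; rfl
  rw [hgG] at hcon
  obtain ⟨p, hp0, hpS, hpM⟩ := exists_path hS (g : G)
  set M := len S (g : G) with hM
  have hstep : ∀ j < M, p (j + 1) = p j * ((p j)⁻¹ * p (j + 1)) := by
    intro j _; rw [mul_inv_cancel_left]
  have hπg := pi_g D hπa hπb R n
  rw [← hg] at hπg
  -- the endpoint
  have hpM' : p M = g * 1 := by rw [hpM, mul_one]
  have hfM : f (p M) - f (p 0) = (n : ℝ) * ℓa + ((n : ℝ) - R) * ℓb := by
    rw [hpM', hC.f_eq, hp0, hπg, map_add, map_smul, map_smul, hφu, hφv]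
    simp
  have hUM : U (p M) - U (p 0) = (n : ℝ) * ℓa := by
    rw [hpM', hC.U_eq, hp0, hπg, al]
    simp only [map_add, map_smul, LinearMap.add_apply, LinearMap.smul_apply, hB, smul_eq_mul]
    rw [← hκd]
    field_simp
    ring
  have hVM : V (p M) - V (p 0) = ((n : ℝ) - R) * ℓb := by
    rw [hpM', hC.V_eq, hp0, hπg, be]
    simp only [map_add, map_smul, hB, smul_eq_mul]
    rw [← hκd]
    field_simp
    ring
  have hWM : W (p M) = W (p 0) := by
    rw [hpM', hC.W_eq, hp0, ← roL_apply, hπg, map_add, map_smul, map_smul, ro_u hB hk, ro_v hB hk]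
    simp
  -- bad steps
  classical
  set Bad : Finset ℕ := (Finset.range M).filter (fun j => f (p (j + 1)) ≤ f (p j) + 1 - δ)
    with hBad
  have hBadsub : Bad ⊆ Finset.range M := Finset.filter_subset _ _
  have hsum : f (p M) - f (p 0) ≤ M - δ * Bad.card := by
    rw [← Finset.sum_range_sub (fun j => f (p j)) M]
    have : ∀ j ∈ Finset.range M, f (p (j + 1)) - f (p j) ≤ 1 - (if j ∈ Bad then δ else 0) := by
      intro j hj
      have hj' := Finset.mem_range.1 hj
      split_ifs with hb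
      · have := (Finset.mem_filter.1 hb).2
        linarith
      · have := hC.lip (p j) _ (hpS j hj')
        rw [← hstep j hj'] at this
        linarith
    refine (Finset.sum_le_sum this).trans ?_
    rw [Finset.sum_sub_distrib]
    simp only [Finset.sum_const, Finset.card_range, nsmul_eq_mul, mul_one]
    rw [← Finset.sum_filter, Finset.filter_mem_eq_inter, Finset.inter_eq_right.2 hBadsub]
    simp only [Finset.sum_const, nsmul_eq_mul]
    linarith
  have hbc : δ * Bad.card ≤ ε * R := by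
    rw [hfM] at hsum
    linarith
  have hmono : ∀ j < M, j ∉ Bad → U (p j) ≤ U (p (j + 1)) ∧ V (p j) ≤ V (p (j + 1)) ∧
      ∀ i, W (p j) i ≤ W (p (j + 1)) i := by
    intro j hj hb
    have := hC.mono (p j) _ (hpS j hj)
    rw [← hstep j hj] at this
    rcases this with h | h
    · exact absurd (Finset.mem_filter.2 ⟨Finset.mem_range.2 hj, h⟩) hb
    · exact h
  have h2 := hA2 M (fun j => U (p j)) (fun j => V (p j)) K Bad hK hBadsub
    (fun j hj => by
      have h1 := hC.bU (p j) _ (hpS j hj)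
      have h2 := hC.bV (p j) _ (hpS j hj)
      rw [← hstep j hj] at h1 h2
      exact ⟨h1, h2⟩)
    (fun j hj hb => ⟨(hmono j hj hb).1, (hmono j hj hb).2.1⟩)
  have h3 := hC2 M (fun j => W (p j)) K Bad hK hBadsub
    (fun j hj => by
      have h1 := hC.bW (p j) _ (hpS j hj)
      rw [← hstep j hj] at h1
      exact h1)
    (fun j hj hb => (hmono j hj hb).2.2) hWM
  have h1 := hC1 p M g hp0 hpS hpM
  have hsumF : ∑ j ∈ Finset.range M, B (F (p j) - F 1) (F (p (j + 1)) - F (p j))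
      = κ * ∑ j ∈ Finset.range M, ((U (p j) - U (p 0)) * (V (p (j + 1)) - V (p j))
          - (V (p j) - V (p 0)) * (U (p (j + 1)) - U (p j)))
        + ∑ j ∈ Finset.range M,
          B (roL B u v (W (p j) - W (p 0))) (roL B u v (W (p (j + 1)) - W (p j))) := by
    rw [Finset.mul_sum, ← Finset.sum_add_distrib]
    apply Finset.sum_congr rfl
    intro j _
    have e1 : F (p j) - F 1 = (U (p j) - U (p 0)) • u + (V (p j) - V (p 0)) • v
        + roL B u v (W (p j) - W (p 0)) := by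
      simp only [hF, map_sub, hp0]; module
    have e2 : F (p (j + 1)) - F (p j) = (U (p (j + 1)) - U (p j)) • u
        + (V (p (j + 1)) - V (p j)) • v + roL B u v (W (p (j + 1)) - W (p j)) := by
      simp only [hF, map_sub]; module
    rw [e1, e2, expand hB hk]
  rw [hsumF] at h1
  have hz := zeta_g D hπa hπb R n
  rw [← hg, ← hκd] at hz
  have h1' := (abs_le.1 h1).2
  rw [hUM, hVM] at h2
  set X := ∑ j ∈ Finset.range M, ((U (p j) - U (p 0)) * (V (p (j + 1)) - V (p j))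
          - (V (p j) - V (p 0)) * (U (p (j + 1)) - U (p j))) with hX
  set Y := ∑ j ∈ Finset.range M,
          B (roL B u v (W (p j) - W (p 0))) (roL B u v (W (p (j + 1)) - W (p j))) with hY
  -- real estimates
  have hnRr : (R : ℝ) ≤ n := by exact_mod_cast hnR
  have hn1r : (1 : ℝ) ≤ n := by exact_mod_cast hn1'
  have hRr : (0 : ℝ) ≤ R := Nat.cast_nonneg R
  set m : ℝ := (M : ℝ) with hm
  set c : ℝ := (Bad.card : ℝ) with hc
  have hm0 : 0 ≤ m := Nat.cast_nonneg M
  have hc0 : 0 ≤ c := Nat.cast_nonneg _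
  have hmn : m ≤ C3 * n := by
    have e1 : ((n : ℝ) - R) * ℓb ≤ n * ℓb :=
      mul_le_mul_of_nonneg_right (by linarith) (by linarith)
    have e2 : ε * R ≤ 1 * n := mul_le_mul hε1 hnRr hRr zero_le_one
    have e3 : C3 * n = n * ℓa + n * ℓb + n := by rw [hC3]; ring
    linarith
  have hcb : c ≤ ε / δ * R := by
    rw [div_mul_eq_mul_div, le_div_iff₀ hδ]; linarith
  have hC1m : C1 * m ≤ |C1| * C3 * n := by
    have e1 : C1 * m ≤ |C1| * m := mul_le_mul_of_nonneg_right (le_abs_self _) hm0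
    have e2 : |C1| * m ≤ |C1| * (C3 * n) := mul_le_mul_of_nonneg_left hmn (abs_nonneg _)
    linarith
  have hz1 : -(((n : ℝ) - R) * ζ b) ≤ n * |ζ b| := by
    have e1 : -(((n : ℝ) - R) * ζ b) ≤ ((n : ℝ) - R) * |ζ b| := by
      have h1 := neg_abs_le (ζ b)
      have h2 := mul_le_mul_of_nonneg_left h1 (sub_nonneg.2 hnRr)
      linarith
    have e2 : ((n : ℝ) - R) * |ζ b| ≤ n * |ζ b| := by
      apply mul_le_mul_of_nonneg_right _ (abs_nonneg _); linarith
    linarith
  have hz2 : -((n : ℝ) * ζ a) ≤ n * |ζ a| := by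
    have h1 := neg_abs_le (ζ a)
    have h2 := mul_le_mul_of_nonneg_left h1 (Nat.cast_nonneg (α := ℝ) n)
    linarith
  have hmc : κ * (3 * K ^ 2 * m * c) ≤ κ * (ℓa * ℓb) * (n * R) / 2 := by
    have e1 : m * c ≤ (C3 * n) * (ε / δ * R) := mul_le_mul hmn hcb hc0 (by positivity)
    have e2 : κ * (3 * K ^ 2 * m * c) ≤ κ * (3 * K ^ 2) * ((C3 * n) * (ε / δ * R)) := by
      have h0 : 0 ≤ κ * (3 * K ^ 2) := by positivity
      have := mul_le_mul_of_nonneg_left e1 h0
      have e : κ * (3 * K ^ 2 * m * c) = κ * (3 * K ^ 2) * (m * c) := by ring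
      rw [e]; exact this
    refine e2.trans ?_
    have e3 : κ * (3 * K ^ 2) * ((C3 * n) * (ε / δ * R))
        = (ε * (6 * κ * K ^ 2 * C3)) / δ * (n * R) / 2 := by field_simp; ring
    rw [e3]
    have e4 : (ε * (6 * κ * K ^ 2 * C3)) / δ ≤ κ * (ℓa * ℓb) := by
      rw [div_le_iff₀ hδ]; linarith
    have : 0 ≤ (n : ℝ) * R := by positivity
    have := mul_le_mul_of_nonneg_right e4 this
    linarith
  have hC2c : C2 * (K * c) ^ 2 ≤ n := by
    have e1 : C2 * (K * c) ^ 2 ≤ |C2| * (K * c) ^ 2 :=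
      mul_le_mul_of_nonneg_right (le_abs_self _) (sq_nonneg _)
    have e2 : (K * c) ^ 2 ≤ (K * (ε / δ * R)) ^ 2 := by
      exact pow_le_pow_left₀ (mul_nonneg hK hc0) (mul_le_mul_of_nonneg_left hcb hK) 2
    have e3 : |C2| * (K * c) ^ 2 ≤ |C2| * (K * (ε / δ * R)) ^ 2 :=
      mul_le_mul_of_nonneg_left e2 (abs_nonneg _)
    have e4 : |C2| * (K * (ε / δ * R)) ^ 2 = C4 * (R : ℝ) ^ 2 := by rw [hC4]; ring
    have e5 : (n1 : ℝ) ≤ n := by exact_mod_cast hnn1
    linarith
  have hXk : κ * X ≤ κ * ((n : ℝ) * ℓa * (((n : ℝ) - R) * ℓb) + 6 * K ^ 2 * m * c) :=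
    mul_le_mul_of_nonneg_left h2 hκ.le
  have key : κ * (ℓa * ℓb) * (n * R) / 2 ≤ (C5 + 1) * n := by
    have e1 : κ * (ℓa * ℓb) * (n * R) ≤ -(((n : ℝ) - R) * ζ b) - (n * ζ a)
        + κ * (3 * K ^ 2 * m * c) + C2 * (K * c) ^ 2 / 2 + C1 * m := by
      linarith
    have e2 : C5 * n = n * |ζ a| + n * |ζ b| + |C1| * C3 * n := by rw [hC5]; ring
    linarith
  have hpos : 0 < κ * (ℓa * ℓb) := by positivity
  have hRR0 : (R0 : ℝ) ≤ R := by exact_mod_cast hR
  rw [div_lt_iff₀ hpos] at hR0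
  have hfin : κ * (ℓa * ℓb) * R / 2 ≤ C5 + 1 := by
    have hn0 : (0 : ℝ) < n := by linarith
    have : (κ * (ℓa * ℓb) * R / 2) * n ≤ (C5 + 1) * n := by linarith
    exact le_of_mul_le_mul_right this hn0
  have hlast := mul_le_mul_of_nonneg_right hRR0 hpos.le
  linarith

end Pool.Agent.Helper89.HB
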